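import Pool.Agent.H.MP_411355_ag.B

set_option autoImplicit false
open Pool.Agent.H.MP_411355_ag

namespace Pool.Agent.Results.MP_411355_ag.TwoPoints

universe u

theorem result (k : Type u) [Field k] : ∃ J : Ideal (MvPolynomial (Fin 3) (k × k)),
    (∀ (T : Type u) [CommRing T] [Algebra k T], Set.BijOn
      (fun φ : k × k →ₐ[k] T => J.map (MvPolynomial.map φ.toRingHom)) Set.univ
      (Hilb ![(3 : ℤ), 4, 5]
        (fun a : ℤ => if a ∈ ({0, 3, 4, 5, 6, 8, 9, 10, 12, 13} : Finset ℤ) then 1 else 0) T)) ∧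
    Nonempty (PrimeSpectrum (k × k)) ∧ ¬ PreconnectedSpace (PrimeSpectrum (k × k)) := by
  obtain ⟨J, hJ⟩ := main2 k
  refine ⟨J, hJ, inferInstance, fun h => ?_⟩
  have := isClopen_iff.mp (PrimeSpectrum.isClopen_iff.mpr ⟨((1, 0) : k × k), by ext <;> simp, rfl⟩)
  rcases this with e | e
  · have : (⟨RingHom.ker (RingHom.fst k k), RingHom.ker_isPrime _⟩ : PrimeSpectrum (k × k)) ∈ (∅ : Set _) := by
      rw [← e]; simp [RingHom.mem_ker]
    exact this
  · have : (⟨RingHom.ker (RingHom.snd k k), RingHom.ker_isPrime _⟩ : PrimeSpectrum (k × k)) ∈ Set.univ := trivial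
    rw [← e] at this
    simp [RingHom.mem_ker] at this

end Pool.Agent.Results.MP_411355_ag.TwoPoints
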